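import Pool.Agent.R942.DC.Main

/-!
# Semisimplicity on products and on dominated varieties
-/

set_option autoImplicit false

namespace Pool.Agent.R942.PR

open Polynomial Module Pool.Agent.R942.ES TensorProduct

section

variable {E : Type} [Field E]

/-- Semisimplicity from a spanning set of eigenvectors. -/
lemma isSemisimple_of_span [IsAlgClosed E] {V : Type} [AddCommGroup V] [Module E V]
    [FiniteDimensional E V] (F : Module.End E V) (s : Set V) (hs : Submodule.span E s = ⊤)
    (h : ∀ v ∈ s, ∃ c : E, F v = c • v) : F.IsSemisimple := by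
  classical
  set p : E[X] := ∏ β ∈ F.charpoly.roots.toFinset, (X - C β) with hp
  have hsq : Squarefree p := by
    have h1 : p.Separable := separable_prod_X_sub_C_iff'.2 fun x _ y _ hxy => hxy
    exact h1.squarefree
  refine Module.End.isSemisimple_of_squarefree_aeval_eq_zero hsq ?_
  apply LinearMap.ext_on hs
  intro z hz
  rw [LinearMap.zero_apply]
  by_cases hz0 : z = 0
  · rw [hz0, map_zero]
  obtain ⟨β, hz1⟩ := h z hz
  have hβ : β ∈ F.charpoly.roots.toFinset := by
    rw [Multiset.mem_toFinset, mem_roots (LinearMap.charpoly_monic F).ne_zero,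
      ← Module.End.hasEigenvalue_iff_isRoot_charpoly]
    exact Module.End.hasEigenvalue_of_hasEigenvector
      (x := z) ⟨Module.End.mem_eigenspace_iff.2 hz1, hz0⟩
  have h2 : (aeval F p) z = p.eval β • z :=
    Module.End.aeval_apply_of_hasEigenvector ⟨Module.End.mem_eigenspace_iff.2 hz1, hz0⟩
  rw [h2, hp, eval_prod, Finset.prod_eq_zero hβ, zero_smul]
  rw [eval_sub, eval_X, eval_C, sub_self]

/-- The eigenvectors of a semisimple endomorphism span. -/
lemma span_of_isSemisimple [IsAlgClosed E] {V : Type} [AddCommGroup V] [Module E V]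
    [FiniteDimensional E V] {F : Module.End E V} (h : F.IsSemisimple) :
    Submodule.span E {v | ∃ c : E, F v = c • v} = ⊤ := by
  rw [eq_top_iff, ← Module.End.iSup_maxGenEigenspace_eq_top F, iSup_le_iff]
  intro β x hx
  apply Submodule.subset_span
  rw [Module.End.IsFinitelySemisimple.maxGenEigenspace_eq_eigenspace h.isFinitelySemisimple] at hx
  exact ⟨β, Module.End.mem_eigenspace_iff.1 hx⟩

lemma isSemisimple_tensor [IsAlgClosed E] {V V' : Type} [AddCommGroup V] [Module E V]
    [FiniteDimensional E V] [AddCommGroup V'] [Module E V'] [FiniteDimensional E V']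
    {F : Module.End E V} {F' : Module.End E V'} (h : F.IsSemisimple) (h' : F'.IsSemisimple) :
    Module.End.IsSemisimple (M := V ⊗[E] V') (TensorProduct.map F F') := by
  refine isSemisimple_of_span _ {z | ∃ x y, (∃ c : E, F x = c • x) ∧ (∃ c : E, F' y = c • y) ∧
    z = x ⊗ₜ[E] y} ?_ ?_
  · rw [eq_top_iff, ← TensorProduct.span_tmul_eq_top, Submodule.span_le]
    rintro _ ⟨x, y, rfl⟩
    have hx : x ∈ Submodule.span E {v | ∃ c : E, F v = c • v} := by
      rw [span_of_isSemisimple h]
      exact Submodule.mem_top
    have hy : y ∈ Submodule.span E {v | ∃ c : E, F' v = c • v} := by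
      rw [span_of_isSemisimple h']
      exact Submodule.mem_top
    induction hx using Submodule.span_induction with
    | mem x hx =>
      induction hy using Submodule.span_induction with
      | mem y hy => exact Submodule.subset_span ⟨x, y, hx, hy, rfl⟩
      | zero =>
        rw [tmul_zero]
        exact Submodule.zero_mem _
      | add y z _ _ h1 h2 =>
        rw [tmul_add]
        exact Submodule.add_mem _ h1 h2
      | smul c y _ h1 =>
        rw [tmul_smul]
        exact Submodule.smul_mem _ c h1
    | zero =>
      rw [zero_tmul]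
      exact Submodule.zero_mem _
    | add x z _ _ h1 h2 =>
      rw [add_tmul]
      exact Submodule.add_mem _ h1 h2
    | smul c x _ h1 =>
      rw [← smul_tmul']
      exact Submodule.smul_mem _ c h1
  · rintro _ ⟨x, y, ⟨c, hc⟩, ⟨d, hd⟩, rfl⟩
    refine ⟨c * d, ?_⟩
    change (TensorProduct.map F F') (x ⊗ₜ[E] y) = _
    rw [TensorProduct.map_tmul, hc, hd, smul_tmul_smul]

lemma isSemisimple_pi [IsAlgClosed E] {ι : Type} [Fintype ι] [DecidableEq ι] {V : ι → Type}
    [∀ i, AddCommGroup (V i)] [∀ i, Module E (V i)] [∀ i, FiniteDimensional E (V i)]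
    (F : ∀ i, Module.End E (V i)) (h : ∀ i, (F i).IsSemisimple) :
    Module.End.IsSemisimple (M := ∀ i, V i)
      (LinearMap.pi fun i => (F i).comp (LinearMap.proj i)) := by
  refine isSemisimple_of_span _ {z | ∃ i x, (∃ c : E, F i x = c • x) ∧
    z = LinearMap.single E V i x} ?_ ?_
  · rw [eq_top_iff]
    intro z _
    have h1 : z = ∑ i, LinearMap.single E V i (z i) := by
      funext j
      rw [Finset.sum_apply, Finset.sum_eq_single j]
      · simp
      · intro b _ hb
        simp [Ne.symm hb]
      · simp
    rw [h1]
    refine Submodule.sum_mem _ fun i _ => ?_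
    have hx : z i ∈ Submodule.span E {v | ∃ c : E, F i v = c • v} := by
      rw [span_of_isSemisimple (h i)]
      exact Submodule.mem_top
    generalize z i = x at hx
    induction hx using Submodule.span_induction with
    | mem x hx => exact Submodule.subset_span ⟨i, x, hx, rfl⟩
    | zero =>
      rw [map_zero]
      exact Submodule.zero_mem _
    | add x z _ _ h1 h2 =>
      rw [map_add]
      exact Submodule.add_mem _ h1 h2
    | smul c x _ h1 =>
      rw [map_smul]
      exact Submodule.smul_mem _ c h1
  · rintro _ ⟨i, x, ⟨c, hc⟩, rfl⟩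
    refine ⟨c, ?_⟩
    funext j
    change F j (LinearMap.single E V i x j) = c • (LinearMap.single E V i x j)
    by_cases hj : j = i
    · subst hj
      simp [hc]
    · simp [hj]

end

/-! ### Cohomology with compact supports -/

/-- The `ℓ`-adic cohomology with compact supports `H m` of a variety over a finite field (in the
degrees `m = 0, 1, 2, ...`, coefficients extended to the field `E`), with the action `F m` of the
(geometric) Frobenius. -/
structure Coh (E : Type) [Field E] : Type 1 where
  H : ℕ → Type
  [group : ∀ m, AddCommGroup (H m)]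
  [module : ∀ m, Module E (H m)]
  [finite : ∀ m, FiniteDimensional E (H m)]
  F : ∀ m, Module.End E (H m)

attribute [instance] Coh.group Coh.module Coh.finite

section

variable {E : Type} [Field E]

/-- `SS_i`: the eigenvalue `q ^ i` of the Frobenius is semisimple on the cohomology with compact
supports of degree `2 i`. Since the homology `H_(2 i)(ℚ_ℓ(i))` is dual to the cohomology with compact
supports of degree `2 i`, twisted by `i`, this is the semisimplicity of the eigenvalue one of the
Frobenius on the homology `H_(2 i)(ℚ_ℓ(i))`. -/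
def SS (q : ℕ) (C : Coh E) (i : ℕ) : Prop :=
  (C.F (2 * i)).maxGenEigenspace ((q : E) ^ i) = (C.F (2 * i)).eigenspace ((q : E) ^ i)

/-- The cohomology of a product (Künneth formula). -/
noncomputable def Coh.prod (C D : Coh E) : Coh E where
  H m := ∀ p : Finset.HasAntidiagonal.antidiagonal m, C.H p.1.1 ⊗[E] D.H p.1.2
  F m := LinearMap.pi fun p =>
    (TensorProduct.map (C.F p.1.1) (D.F p.1.2)).comp (LinearMap.proj p)

/-- The variety `U` with the cohomology `D` is dominated by the variety `X` with the cohomology `C`:
there are maps `H^m_c(U) → H^m_c(X)` that commute with the Frobenius, and the Frobenius has no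
eigenvalue `q ^ i` on the kernel in degree `2 i`. This is so for an open subvariety `U` of `X`, since
the kernel is a quotient of the cohomology of degree `2 i - 1` of the complement, which has weights at
most `2 i - 1` (Deligne); and if there is a proper surjective morphism from `X` onto `U`, since the
kernel has weights at most `2 i - 1`. The relation is transitive. -/
def IsDominated (q : ℕ) (D C : Coh E) : Prop :=
  ∃ f : ∀ m, D.H m →ₗ[E] C.H m, (∀ m x, f m (D.F m x) = C.F m (f m x)) ∧
    ∀ i x, f (2 * i) x = 0 → D.F (2 * i) x = (q : E) ^ i • x → x = 0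

/-- Domination and semisimplicity. -/
theorem ss_of_dominated {q : ℕ} {D C : Coh E} (h : IsDominated q D C) {i : ℕ}
    (hC : (C.F (2 * i)).IsSemisimple) : SS q D i := by
  obtain ⟨f, hf, hker⟩ := h
  apply le_antisymm _ Module.End.eigenspace_le_maxGenEigenspace
  intro x hx
  rw [Module.End.mem_eigenspace_iff]
  rw [Module.End.mem_maxGenEigenspace] at hx
  obtain ⟨k, hk⟩ := hx
  set ν : Module.End E (D.H (2 * i)) := D.F (2 * i) - ((q : E) ^ i) • 1 with hν
  -- the image of `ν x` is zero
  have hcomm : ∀ (j : ℕ) (y : D.H (2 * i)),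
      f (2 * i) ((ν ^ j) y) = ((C.F (2 * i) - ((q : E) ^ i) • (1 : Module.End E (C.H (2 * i)))) ^ j)
        (f (2 * i) y) := by
    intro j
    induction j with
    | zero => intro y; rfl
    | succ j ih =>
      intro y
      rw [pow_succ, Module.End.mul_apply, ih, pow_succ, Module.End.mul_apply]
      congr 1
      rw [hν]
      simp only [LinearMap.sub_apply, LinearMap.smul_apply, Module.End.one_apply, map_sub, map_smul,
        hf]
  have h1 : f (2 * i) x ∈ (C.F (2 * i)).maxGenEigenspace ((q : E) ^ i) := by
    rw [Module.End.mem_maxGenEigenspace]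
    refine ⟨k, ?_⟩
    rw [← hcomm, hk, map_zero]
  rw [Module.End.IsFinitelySemisimple.maxGenEigenspace_eq_eigenspace hC.isFinitelySemisimple,
    Module.End.mem_eigenspace_iff] at h1
  have h2 : f (2 * i) (ν x) = 0 := by
    have h3 := hcomm 1 x
    rw [pow_one, pow_one] at h3
    rw [h3, LinearMap.sub_apply, h1]
    simp
  -- so `ν x` is zero
  have h3 : ∀ j, f (2 * i) ((ν ^ (j + 1)) x) = 0 := by
    intro j
    rw [pow_succ, Module.End.mul_apply, hcomm, h2, map_zero]
  have h4 : ∀ j, (ν ^ (j + 1)) x = 0 → (ν ^ 1) x = 0 := by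
    intro j
    induction j with
    | zero => exact fun h => h
    | succ j ih =>
      intro h
      apply ih
      apply hker i _ (h3 j)
      have h5 : ν ((ν ^ (j + 1)) x) = 0 := by
        rw [← Module.End.mul_apply, ← pow_succ']
        exact h
      rw [hν, LinearMap.sub_apply, sub_eq_zero] at h5
      rw [hν, h5]
      rfl
  have h5 : (ν ^ 1) x = 0 := by
    apply h4 k
    rw [pow_succ', Module.End.mul_apply, hk, map_zero]
  rw [pow_one, hν, LinearMap.sub_apply, sub_eq_zero] at h5
  rw [h5]
  rfl

/-- All Frobenius endomorphisms are semisimple. -/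
def Coh.IsSemisimple (C : Coh E) : Prop := ∀ m, (C.F m).IsSemisimple

theorem prod_semisimple [IsAlgClosed E] {C D : Coh E} (hC : C.IsSemisimple)
    (hD : D.IsSemisimple) : (C.prod D).IsSemisimple := fun m =>
  isSemisimple_pi (E := E)
    (V := fun p : Finset.HasAntidiagonal.antidiagonal m => C.H p.1.1 ⊗[E] D.H p.1.2)
    (fun p => TensorProduct.map (C.F p.1.1) (D.F p.1.2)) fun p =>
    isSemisimple_tensor (hC p.1.1) (hD p.1.2)

/-- `C` is the cohomology of a smooth projective geometrically irreducible surface over the field with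
`q` elements without cohomology in odd degrees, and `Φ` is the Frobenius on the second cohomology. -/
structure IsSurface (q : ℕ) (C : Coh E) {V : Type} [AddCommGroup V] [Module E V]
    (Φ : Module.End E V) : Prop where
  zero : ∀ x, C.F 0 x = x
  two : ∃ e : C.H 2 ≃ₗ[E] V, ∀ x, e (C.F 2 x) = Φ (e x)
  four : ∀ x, C.F 4 x = (q : E) ^ 2 • x
  other : ∀ m, m ≠ 0 → m ≠ 2 → m ≠ 4 → ∀ x : C.H m, x = 0

theorem IsSurface.semisimple [IsAlgClosed E] {q : ℕ} {C : Coh E} {V : Type}
    [AddCommGroup V] [Module E V] [FiniteDimensional E V] {Φ : Module.End E V}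
    (h : IsSurface q C Φ) (hΦ : Φ.IsSemisimple) : C.IsSemisimple := by
  intro m
  by_cases h0 : m = 0
  · subst h0
    exact isSemisimple_of_span _ Set.univ Submodule.span_univ fun v _ =>
      ⟨1, by rw [h.zero, one_smul]⟩
  by_cases h4 : m = 4
  · subst h4
    exact isSemisimple_of_span _ Set.univ Submodule.span_univ fun v _ => ⟨_, h.four v⟩
  by_cases h2 : m = 2
  · subst h2
    obtain ⟨e, he⟩ := h.two
    refine isSemisimple_of_span _ (e.symm '' {v | ∃ c : E, Φ v = c • v}) ?_ ?_
    · have h5 : Submodule.span E (e.symm '' {v | ∃ c : E, Φ v = c • v}) =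
          (Submodule.span E {v | ∃ c : E, Φ v = c • v}).map (e.symm : V →ₗ[E] C.H 2) :=
        (Submodule.map_span _ _).symm
      rw [h5, span_of_isSemisimple hΦ, Submodule.map_top, LinearMap.range_eq_top]
      exact e.symm.surjective
    · rintro _ ⟨v, ⟨c, hc⟩, rfl⟩
      refine ⟨c, ?_⟩
      apply e.injective
      rw [he, e.apply_symm_apply, hc, map_smul, e.apply_symm_apply]
  · exact isSemisimple_of_span _ Set.univ Submodule.span_univ fun v _ =>
      ⟨0, by rw [h.other m h0 h2 h4 v, map_zero, smul_zero]⟩

end

end Pool.Agent.R942.PR
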